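import Mathlib

namespace Pool.Agent.Results.MP_81d777_co.Wreath

open Finset

section defs
variable {V : Type} [Fintype V] [DecidableEq V] (G : SimpleGraph V) [DecidableRel G.Adj]

/-- One round: add every vertex that is the only white neighbour of some blue vertex. -/
def step (B : Finset V) : Finset V :=
  univ.filter fun w => w ∈ B ∨ ∃ u ∈ B, G.Adj u w ∧ ∀ x, G.Adj u x → x ∈ B ∨ x = w

def IsForcing (B : Finset V) : Prop := ∃ p, (step G)^[p] B = univ

/-- Propagation time: number of rounds until all vertices are blue. -/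
noncomputable def pt (B : Finset V) : ℕ := sInf {p | (step G)^[p] B = univ}

open Classical in
/-- Upper propagation time: maximum of `pt` over minimal forcing sets. -/
noncomputable def upt : ℕ := (univ.filter fun B => Minimal (IsForcing G) B).sup (pt G)

/-- The part `S` induces `nK₁` or a disjoint union of two cliques, all sizes at least 2. -/
def GoodPart (S : Finset V) : Prop :=
  (2 ≤ S.card ∧ ∀ u ∈ S, ∀ v ∈ S, ¬ G.Adj u v) ∨
    ∃ A ⊆ S, 2 ≤ A.card ∧ 2 ≤ (S \ A).card ∧
      ∀ u ∈ S, ∀ v ∈ S, u ≠ v → (G.Adj u v ↔ (u ∈ A ↔ v ∈ A))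

def IsFastJoin : Prop :=
  2 ≤ Fintype.card V ∧ (G = ⊤ ∨ ∃ t, 2 ≤ t ∧ ∃ f : V → Fin t, (∀ u v, f u ≠ f v → G.Adj u v) ∧
    ∀ i, GoodPart G (univ.filter fun v => f v = i))

theorem fort (F : Finset V) (hF : ∀ u, ∀ w ∈ F, G.Adj u w → ∃ x ∈ F, G.Adj u x ∧ x ≠ w)
    (B : Finset V) (h : ∀ x ∈ F, x ∉ B) (p : ℕ) : ∀ x ∈ F, x ∉ (step G)^[p] B := by
  induction p with
  | zero => exact h
  | succ p ih =>
    intro w hw hm
    rw [Function.iterate_succ_apply'] at hm
    rcases (mem_filter.1 hm).2 with h1 | ⟨u, -, h1, h2⟩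
    · exact ih w hw h1
    · obtain ⟨x, hx, h3, h4⟩ := hF u w hw h1
      exact (h2 x h3).elim (ih x hx) h4
end defs

/-- The circulant graph `C₁₂(1,5)`. -/
def W : SimpleGraph (Fin 12) := SimpleGraph.fromRel fun i j => j = i + 1 ∨ j = i + 5

instance : DecidableRel W.Adj := fun i j =>
  decidable_of_iff (i ≠ j ∧ ((j = i + 1 ∨ j = i + 5) ∨ (i = j + 1 ∨ i = j + 5)))
    Iff.rfl

def forts : List (List (Fin 12)) :=
  [[0,6], [1,7], [2,8], [3,9], [4,10], [5,11], [0,2,4], [0,2,10], [0,8,4], [0,8,10], [6,2,4],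
   [6,2,10], [6,8,4], [6,8,10], [1,3,5], [1,3,11], [1,9,5], [1,9,11], [7,3,5], [7,3,11], [7,9,5],
   [7,9,11]]

def nb (u : Fin 12) : List (Fin 12) := [u + 1, u + 5, u + 7, u + 11]

theorem hnb : ∀ u x, W.Adj u x ↔ x ∈ nb u := by decide +kernel

theorem f1 : ∀ F ∈ forts, F ≠ [] ∧ ∀ u, ∀ w ∈ F, W.Adj u w → ∃ x ∈ F, W.Adj u x ∧ x ≠ w := by
  decide +kernel

def chk (f : Fin 12 → Bool) : Bool :=
  forts.any (fun F => F.all fun x => !f x) ||
    (List.finRange 12).all fun w => f w || (nb w).any fun u => f u && (nb u).all fun x =>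
      f x || x == w

theorem f0 : ∀ a b c d e f g h i j k l : Bool, chk ![a, b, c, d, e, f, g, h, i, j, k, l] = true := by
  decide +kernel

theorem f2 (B : Finset (Fin 12)) : (∃ F ∈ forts, ∀ x ∈ F, x ∉ B) ∨ step W B = univ := by
  have e : (fun x => decide (x ∈ B)) = ![decide (0 ∈ B), decide (1 ∈ B), decide (2 ∈ B),
      decide (3 ∈ B), decide (4 ∈ B), decide (5 ∈ B), decide (6 ∈ B), decide (7 ∈ B),
      decide (8 ∈ B), decide (9 ∈ B), decide (10 ∈ B), decide (11 ∈ B)] := by
    funext x; fin_cases x <;> rfl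
  have h : chk (fun x => decide (x ∈ B)) = true := by rw [e]; exact f0 ..
  simp only [chk, Bool.or_eq_true, List.any_eq_true, List.all_eq_true, Bool.not_eq_true',
    decide_eq_false_iff_not, decide_eq_true_eq, Bool.and_eq_true, beq_iff_eq] at h
  refine h.imp id fun h => eq_univ_of_forall fun w => ?_
  simp only [step, mem_filter, mem_univ, true_and]
  refine (h w (List.mem_finRange w)).imp id fun ⟨u, h1, h2, h3⟩ => ⟨u, h2, ((hnb w u).2 h1).symm,
    fun x hx => h3 x ((hnb u x).1 hx)⟩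

theorem result : W.Connected ∧ upt W = 1 ∧ ¬ IsFastJoin W := by
  classical
  have hc : W.Connected := by
    have r : ∀ u, W.Reachable 0 u := fun u => by
      induction u using Fin.induction with
      | zero => exact .refl _
      | succ n ih => exact ih.trans (SimpleGraph.Adj.reachable (by revert n; decide))
    exact ⟨fun u v => (r u).symm.trans (r v)⟩
  refine ⟨hc, le_antisymm (Finset.sup_le fun B hB => ?_) ?_, ?_⟩
  · obtain ⟨p, hp⟩ := (mem_filter.1 hB).2.1
    rcases f2 B with ⟨F, h1, h2⟩ | h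
    · obtain ⟨x, hx⟩ := List.exists_mem_of_ne_nil F (f1 F h1).1
      exact absurd (hp ▸ mem_univ x) (fort W F.toFinset (by simpa using (f1 F h1).2) B
        (by simpa using h2) p x (by simpa using hx))
    · exact Nat.sInf_le h
  · have h0 : IsForcing W (univ.erase 0) := ⟨1, by decide +kernel⟩
    obtain ⟨B, h1, h2⟩ := exists_minimal_le_of_wellFoundedLT _ _ h0
    refine le_trans ?_ (Finset.le_sup (f := pt W) (b := B) (by simpa using h2))
    rw [Nat.one_le_iff_ne_zero]
    intro h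
    have h3 := Nat.sInf_mem (s := {p | (step W)^[p] B = univ}) h2.1
    rw [show sInf {p | (step W)^[p] B = univ} = 0 from h] at h3
    have : (0 : Fin 12) ∈ univ.erase 0 := h1 ((show B = univ from h3) ▸ mem_univ _)
    simp at this
  · rintro ⟨-, h | ⟨t, ht, f, h1, h2⟩⟩
    · exact (by decide : ¬ W.Adj 0 2) (h ▸ by decide)
    · have e : ∀ u v, ¬ W.Adj u v → f u = f v := fun u v h => by_contra fun h' => h (h1 u v h')
      have c : ∀ u : Fin 12, ∃ v, ¬ W.Adj u v ∧ ¬ W.Adj v 0 := by decide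
      have a : ∀ u, f u = f 0 := fun u => by
        obtain ⟨v, p, q⟩ := c u
        rw [e u v p, e v 0 q]
      haveI : Nontrivial (Fin t) := Fin.nontrivial_iff_two_le.2 ht
      obtain ⟨i, hi⟩ := exists_ne (f 0)
      have hS : (univ.filter fun v => f v = i) = ∅ :=
        filter_eq_empty_iff.2 fun v _ h => hi (h ▸ a v)
      have := h2 i
      rw [hS] at this
      rcases this with ⟨h, -⟩ | ⟨A, -, -, h, -⟩ <;> simp at h

end Pool.Agent.Results.MP_81d777_co.Wreath
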